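import Pool.Agent.Zk5.DH.All
import Pool.Agent.Zk69.DH.LM
import Pool.Agent.Zk3.DH.LM2
import Pool.Agent.Zk3.DH.MD
import Pool.Agent.Zk2.DH.ZP
import Pool.Agent.Zk2.DH.MP
import Pool.Agent.Zk1.DH.Loc6
import Pool.Agent.Zk41.DH.Top
import Pool.Agent.Zk41.DH.PP2

set_option autoImplicit false

/-! # The final statement `S_FIN`, all tasks together -/

namespace Pool.Agent.Zk5.DH

open Pool.Agent.Zk1.DH

theorem slm : S_LM :=
  Pool.Agent.Zk69.DH.sLM Pool.Agent.Zk2.DH.smp Pool.Agent.Zk41.DH.mp0 Pool.Agent.Zk3.DH.sMD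
    Pool.Agent.Zk3.DH.sMD0 Pool.Agent.Zk41.DH.zc Pool.Agent.Zk41.DH.ng Pool.Agent.Zk2.DH.sZP
    Pool.Agent.Zk1.DH.Loc.sLOC

theorem slm2 : S_LM2 :=
  Pool.Agent.Zk3.DH.sLM2 Pool.Agent.Zk2.DH.smp Pool.Agent.Zk3.DH.sMD Pool.Agent.Zk1.DH.Loc.sLOC

/-- The density hypothesis for the derivatives of `XX`, with the optimal constant `4`. -/
theorem dh4 : S_FIN := sfin_all slm slm2

end Pool.Agent.Zk5.DH
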