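import Pool.Agent.Zk1.DH.Spec
import Pool.Agent.W571.SD.Dy
import Pool.Agent.W605.SD.FinA
import Pool.Agent.H986R2.K4.All

set_option autoImplicit false

/-!
DH4, task (H): the final statement.
-/

namespace Pool.Agent.Zk5.DH

open Complex Filter Topology MeasureTheory Set
open Pool.Agent.H24R2.JP (XX)
open Pool.Agent.H24R2.DZ
open Pool.Agent.W571.SD (wt window one_le_wt)
open Pool.Agent.Zk1.DH (S_LM S_M4 S_LM2 S_B4 DHB S_FIN)
open Pool.Agent.H986R2.K4 (UpTo)

/-- the assertion in dyadic windows with the constant `κ` -/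
theorem dyadic (hM4 : S_M4) (hB4 : S_B4) (hup : UpTo 3) (hU : SUnit) (κ : ℝ) (hκ0 : 0 < κ)
    (hκ4 : κ < 4) : ∃ C T0 : ℝ, 0 < C ∧ 2 ≤ T0 ∧ ∀ (T : ℝ) (n : ℕ), T0 ≤ T →
    ∀ S : Finset ℂ, (∀ s ∈ S, bad n s ∧ T < s.im ∧ s.im ≤ 2 * T) →
    ∑ s ∈ S, (analyticOrderNatAt (iteratedDeriv n XX) s : ℝ) ≤
      C * T * Real.exp (-(κ * n)) * Real.log T := by
  obtain ⟨κ1, C1, T1, n1, hκ1, hC1, hT1, h1⟩ := hM4 κ hκ0 hκ4
  obtain ⟨C2, T2, hC2, hT2, h2⟩ := hB4 κ κ1 hκ0 hκ4 hκ1
  obtain ⟨N, hN⟩ := hup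
  obtain ⟨C5, T5, hC5, hT5, hunit⟩ := hU
  obtain ⟨M, hM⟩ : ∃ M : ℕ, M = max n1 N := ⟨_, rfl⟩
  have hM0 : (0 : ℝ) ≤ M := Nat.cast_nonneg _
  refine ⟨C1 + C2 + 4 * C5 * Real.exp (κ * M), max (max T1 T2) (max T5 (Real.exp (2 + M))),
    by positivity, hT1.trans ((le_max_left _ _).trans (le_max_left _ _)), ?_⟩
  intro T n hT S hS
  have hTT1 : T1 ≤ T := ((le_max_left _ _).trans (le_max_left _ _)).trans hT
  have hTT2 : T2 ≤ T := ((le_max_right _ _).trans (le_max_left _ _)).trans hT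
  have hTT5 : T5 ≤ T := ((le_max_left _ _).trans (le_max_right _ _)).trans hT
  have hTe : Real.exp (2 + M) ≤ T := ((le_max_right _ _).trans (le_max_right _ _)).trans hT
  have hT0 : 0 < T := lt_of_lt_of_le (Real.exp_pos _) hTe
  obtain ⟨L, hL⟩ : ∃ L : ℝ, L = Real.log T := ⟨_, rfl⟩
  have hLM : 2 + (M : ℝ) ≤ L := by rw [hL, Real.le_log_iff_exp_le hT0]; exact hTe
  have hL0 : 0 < L := by linarith
  have hT2' : 2 ≤ T := hT1.trans hTT1
  have hn0 : (0 : ℝ) ≤ n := Nat.cast_nonneg _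
  have hE := Real.exp_pos (-(κ * (n : ℝ)))
  have hE2 := Real.exp_pos (κ * (M : ℝ))
  have hrest : ∀ A : ℝ, A ≤ C1 + C2 + 4 * C5 * Real.exp (κ * M) →
      A * T * Real.exp (-(κ * n)) * L ≤
      (C1 + C2 + 4 * C5 * Real.exp (κ * M)) * T * Real.exp (-(κ * n)) * L := by
    intro A hA
    gcongr
  rw [← hL]
  rcases lt_or_ge n M with hcase | hcase
  · -- small n
    have hnM : (n : ℝ) ≤ M := by exact_mod_cast hcase.le
    have h10 := window hC5 hT5 hunit n T T (by linarith) (by rw [← hL]; linarith) hT0.le S (by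
      intro s hs
      obtain ⟨h1, h2, h3⟩ := hS s hs
      exact ⟨h2.le, by linarith, h1.1⟩)
    refine h10.trans (le_trans ?_ (hrest (4 * C5 * Real.exp (κ * M)) (by linarith)))
    have h11 : Real.log (T + T) ≤ 2 * L := by
      rw [← two_mul, Real.log_mul (by norm_num) hT0.ne', ← hL]
      have := Real.log_two_lt_d9
      linarith
    have h12 : 1 ≤ Real.exp (κ * M) * Real.exp (-(κ * n)) := by
      rw [← Real.exp_add]
      apply Real.one_le_exp
      have : κ * n ≤ κ * M := mul_le_mul_of_nonneg_left hnM hκ0.le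
      linarith
    calc (T + 1) * (C5 * Real.log (T + T)) ≤ (2 * T) * (C5 * (2 * L)) := by
          apply mul_le_mul (by linarith) (mul_le_mul_of_nonneg_left h11 hC5.le) _ (by positivity)
          exact mul_nonneg hC5.le (Real.log_nonneg (by linarith))
      _ = 4 * C5 * T * L * 1 := by ring
      _ ≤ 4 * C5 * T * L * (Real.exp (κ * M) * Real.exp (-(κ * n))) :=
          mul_le_mul_of_nonneg_left h12 (by positivity)
      _ = _ := by ring
  have hn1 : n1 ≤ n := (le_max_left _ _).trans (hM ▸ hcase)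
  have hnN : N ≤ n := (le_max_right _ _).trans (hM ▸ hcase)
  rcases le_or_gt (n : ℝ) (κ1 * L) with hc2 | hc2
  · have h10 := h1 T n hTT1 hn1 (by rw [← hL]; exact hc2) S hS
    rw [← hL] at h10
    exact h10.trans (hrest C1 (by nlinarith [mul_pos hC5 hE2]))
  rcases le_or_gt (n : ℝ) L with hc3 | hc3
  · have h10 := h2 T n hTT2 (by rw [← hL]; exact hc2.le) (by rw [← hL]; exact hc3) S hS
    rw [← hL] at h10
    exact h10.trans (hrest C2 (by nlinarith [mul_pos hC5 hE2]))
  · have hempty : S = ∅ := by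
      apply Finset.eq_empty_of_forall_notMem
      intro s hs
      obtain ⟨h10, h11, h12⟩ := hS s hs
      refine hN n hnN s ?_ h10
      rw [abs_of_pos (by linarith)]
      have h13 : 2 * T ≤ Real.exp (3 * n) := by
        have h14 : Real.exp (3 * L) ≤ Real.exp (3 * n) := Real.exp_le_exp.2 (by linarith)
        have h15 : Real.exp (3 * L) = T ^ 3 := by
          rw [hL, show 3 * Real.log T = ((3 : ℕ) : ℝ) * Real.log T by norm_num, Real.exp_nat_mul,
            Real.exp_log hT0]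
        rw [h15] at h14
        nlinarith [sq_nonneg (T - 2), mul_pos hT0 hT0]
      linarith
    rw [hempty, Finset.sum_empty]
    positivity

/-- from dyadic windows to all heights -/
theorem dhb_of (hst : SStrip) (hlow : SLowX) (κ : ℝ) (hκ : 0 < κ)
    (h1 : ∃ C T0 : ℝ, 0 < C ∧ 2 ≤ T0 ∧ ∀ (T : ℝ) (n : ℕ), T0 ≤ T →
    ∀ S : Finset ℂ, (∀ s ∈ S, bad n s ∧ T < s.im ∧ s.im ≤ 2 * T) →
    ∑ s ∈ S, (analyticOrderNatAt (iteratedDeriv n XX) s : ℝ) ≤
      C * T * Real.exp (-(κ * n)) * Real.log T) : DHB κ := by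
  obtain ⟨C, T0, hC, hT0, h⟩ := h1
  obtain ⟨D, hD0, hD⟩ := Pool.Agent.W605.SD.low_all hst hlow κ T0 hκ
  refine ⟨D + 2 * C, by linarith, ?_⟩
  intro n T hT S hS
  classical
  have he := Real.exp_pos (-(κ * n))
  have hl2 : 1 / 2 ≤ Real.log T := by
    have h3 : Real.log 2 ≤ Real.log T := Real.log_le_log (by norm_num) hT
    have := Real.log_two_gt_d9
    linarith
  have hTl : 1 ≤ T * Real.log T := by nlinarith
  have hlow := hD n (S.filter fun s => s.im ≤ T0) (by
    intro s hs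
    rw [Finset.mem_filter] at hs
    exact ⟨(hS s hs.1).1, (hS s hs.1).2.1, hs.2⟩)
  have hlow' : D * Real.exp (-(κ * n)) ≤ D * Real.exp (-(κ * n)) * T * Real.log T := by
    have : 0 ≤ D * Real.exp (-(κ * n)) := by positivity
    nlinarith
  have hhigh : ∑ s ∈ S.filter (fun s => ¬ s.im ≤ T0),
      (analyticOrderNatAt (iteratedDeriv n XX) s : ℝ) ≤
      2 * C * Real.exp (-(κ * n)) * T * Real.log T := by
    rcases lt_or_ge T T0 with hTT | hTT
    · have h6 : S.filter (fun s => ¬ s.im ≤ T0) = ∅ := by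
        rw [Finset.filter_eq_empty_iff]
        intro s hs
        have := (hS s hs).2.2
        rw [not_not]; linarith
      rw [h6, Finset.sum_empty]
      have : 0 ≤ T * Real.log T := by linarith
      have h8 : 2 * C * Real.exp (-(κ * n)) * T * Real.log T =
          2 * C * Real.exp (-(κ * n)) * (T * Real.log T) := by
        ring
      rw [h8]
      positivity
    · obtain ⟨k, hk⟩ : ∃ k : ℕ, T < 2 ^ k := pow_unbounded_of_one_lt T (by norm_num)
      have := Pool.Agent.W605.SD.dy_sum hC hT0 n (fun T hT => h T n hT) k T hTT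
        (by nlinarith [pow_pos (show (0 : ℝ) < 2 by norm_num) k])
        (S.filter fun s => ¬ s.im ≤ T0) (by
          intro s hs
          rw [Finset.mem_filter, not_le] at hs
          exact ⟨(hS s hs.1).1, hs.2, (hS s hs.1).2.2⟩)
      refine this.trans (le_of_eq ?_)
      ring
  rw [← Finset.sum_filter_add_sum_filter_not S (fun s => s.im ≤ T0)]
  calc _ ≤ D * Real.exp (-(κ * n)) * T * Real.log T + 2 * C * Real.exp (-(κ * n)) * T * Real.log T :=
        add_le_add (hlow.trans hlow') hhigh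
    _ = _ := by ring

theorem dhb_mono {κ κ' : ℝ} (h : κ ≤ κ') (hD : DHB κ') : DHB κ := by
  obtain ⟨C, hC, hD⟩ := hD
  refine ⟨C, hC, fun n T hT S hS => (hD n T hT S hS).trans ?_⟩
  have h1 : 0 ≤ Real.log T := Real.log_nonneg (by linarith)
  have h2 : Real.exp (-(κ' * n)) ≤ Real.exp (-(κ * n)) := by
    apply Real.exp_le_exp.2
    have : κ * n ≤ κ' * n := mul_le_mul_of_nonneg_right h (Nat.cast_nonneg n)
    linarith
  have h3 : 0 ≤ T := by linarith
  gcongr

/-- a constant larger than `4` implies that all the zeros up to height `exp (κ' n)`, `κ' > 4`, are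
on the line -/
theorem online_of (hup : UpTo 3) (κ : ℝ) (hκ : 4 < κ) (hD : DHB κ) :
    ∃ κ' : ℝ, 4 < κ' ∧ ∃ N : ℕ, ∀ n : ℕ, N ≤ n → ∀ s : ℂ, iteratedDeriv n XX s = 0 →
      |s.im| ≤ Real.exp (κ' * n) → s.re = 0 := by
  obtain ⟨C, hC, hD⟩ := hD
  obtain ⟨N3, hN3⟩ := hup
  obtain ⟨κ', hκ'⟩ : ∃ κ' : ℝ, κ' = (4 + κ) / 2 := ⟨_, rfl⟩
  have h4 : 4 < κ' := by rw [hκ']; linarith
  have hd : 0 < κ - κ' := by rw [hκ']; linarith
  -- for large `n` the bound is less than one
  obtain ⟨N4, hN4⟩ : ∃ N4 : ℕ, ∀ n : ℕ, N4 ≤ n →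
      C * κ' * ((n : ℝ) * Real.exp (-((κ - κ') * n))) < 1 := by
    have h1 : Tendsto (fun x : ℝ => x ^ 1 * Real.exp (-x)) atTop (𝓝 0) :=
      Real.tendsto_pow_mul_exp_neg_atTop_nhds_zero 1
    have h2 : Tendsto (fun n : ℕ => (κ - κ') * (n : ℝ)) atTop atTop :=
      tendsto_natCast_atTop_atTop.const_mul_atTop hd
    have h3 := (h1.comp h2).const_mul (C * κ' / (κ - κ'))
    rw [mul_zero] at h3
    obtain ⟨N4, h5⟩ := (h3.eventually_lt_const (show (0 : ℝ) < 1 by norm_num)).exists_forall_of_atTop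
    refine ⟨N4, fun n hn => ?_⟩
    have h6 := h5 n hn
    refine lt_of_eq_of_lt ?_ h6
    simp only [Function.comp_apply, pow_one]
    field_simp
  refine ⟨κ', h4, max N3 (max N4 1), ?_⟩
  intro n hn s hs him
  have hn3 : N3 ≤ n := (le_max_left _ _).trans hn
  have hn4 : N4 ≤ n := ((le_max_left _ _).trans (le_max_right _ _)).trans hn
  have hn1 : 1 ≤ n := ((le_max_right _ _).trans (le_max_right _ _)).trans hn
  have hn1' : (1 : ℝ) ≤ n := by exact_mod_cast hn1
  by_contra hre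
  have key : ∀ s : ℂ, bad n s → 0 < s.im → s.im ≤ Real.exp (κ' * n) → False := by
    intro s hb h0 h1
    have hT2 : 2 ≤ Real.exp (κ' * n) := by
      have h5 := Real.add_one_le_exp (κ' * n)
      nlinarith
    have h6 := hD n (Real.exp (κ' * n)) hT2 {s} (by
      intro z hz
      rw [Finset.mem_singleton] at hz
      rw [hz]
      exact ⟨hb, h0, h1⟩)
    rw [Finset.sum_singleton, Real.log_exp] at h6
    have h7 := one_le_wt n s hb.1
    unfold wt at h7
    have h8 := hN4 n hn4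
    have h9 : Real.exp (-(κ * n)) * Real.exp (κ' * n) = Real.exp (-((κ - κ') * n)) := by
      rw [← Real.exp_add]; congr 1; ring
    have h10 : C * Real.exp (-(κ * n)) * Real.exp (κ' * n) * (κ' * n) =
        C * κ' * ((n : ℝ) * Real.exp (-((κ - κ') * n))) := by rw [← h9]; ring
    linarith
  have hb : bad n s := ⟨hs, Or.inl hre⟩
  rcases lt_trichotomy s.im 0 with h0 | h0 | h0
  · have hb' := Pool.Agent.H986R2.K4.ChAux.bad_conj
      (fun n z => Pool.Agent.H24R2.JP.B1h.iter_conj XX Pool.Agent.H24R2.JP.B1h.XX_conj n z) n s hb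
    refine key _ hb' ?_ ?_
    · rw [Complex.conj_im]; linarith
    · rw [Complex.conj_im]
      rw [abs_of_neg h0] at him
      exact him
  · refine hN3 n hn3 s ?_ hb
    rw [h0, abs_zero]
    exact (Real.exp_pos _).le
  · rw [abs_of_pos h0] at him
    exact key s hb h0 him

theorem upto3 : UpTo 3 := by
  have h1 := Pool.Agent.H986R2.K4.fwdT (1 / 2) 3 (by norm_num) le_rfl Pool.Agent.H986R2.K4.a1
    (by norm_num)
  exact h1

theorem sfin (hM4 : S_M4) (hB4 : S_B4) (hU : SUnit) : S_FIN := by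
  have hst : SStrip := Pool.Agent.H24R2.DZ.strip
  have hlow : SLowX := Pool.Agent.H24R2.DZ.lowX
  constructor
  · intro κ hκ
    rcases le_or_gt κ 1 with h1 | h1
    · exact dhb_mono h1 (dhb_of hst hlow 1 one_pos
        (dyadic hM4 hB4 upto3 hU 1 one_pos (by norm_num)))
    · exact dhb_of hst hlow κ (by linarith) (dyadic hM4 hB4 upto3 hU κ (by linarith) hκ)
  · rintro ⟨κ, hκ, hD⟩
    obtain ⟨κ', h4, hN⟩ := online_of upto3 κ hκ hD
    obtain ⟨y, hy, hz⟩ := Pool.Agent.H986R2.K4.convT κ' h4 hN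
    exact ⟨1 / 2 + y, by linarith, hz⟩

end Pool.Agent.Zk5.DH
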