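import Pool.Agent.Zk5.DH.Mid4

set_option autoImplicit false

/-!
DH4, task (G): counting, `n` of the order of `log T`.
-/

namespace Pool.Agent.Zk5.DH

open Complex Filter Topology MeasureTheory Set
open Pool.Agent.H24R2.JP (XX)
open Pool.Agent.H24R2.DZ
open Pool.Agent.W571.SD
open Pool.Agent.Zk1.DH (S_LM S_M4 S_LM2 S_B4)

theorem sb4' (hLM2 : S_LM2) (h5 : SUnit) : S_B4 := by
  classical
  intro κt κ1 hκt0 hκt4 hκ1
  obtain ⟨C5, T5, hC5, hT5, hunit⟩ := h5
  obtain ⟨CL, TL, hCL, hTL, hLM⟩ := hLM2 κt κ1 hκt0 hκt4 hκ1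
  refine ⟨100 * C5 * CL / κ1, max TL (max (2 * T5) 1000), by positivity, hTL.trans (le_max_left _ _), ?_⟩
  intro T n hT hn1 hnL S hS
  have hTTL : TL ≤ T := (le_max_left _ _).trans hT
  have hTT5 : 2 * T5 ≤ T := ((le_max_left _ _).trans (le_max_right _ _)).trans hT
  have hT1000 : 1000 ≤ T := ((le_max_right _ _).trans (le_max_right _ _)).trans hT
  have hT0 : 0 < T := by linarith
  obtain ⟨L, hL⟩ : ∃ L : ℝ, L = Real.log T := ⟨_, rfl⟩
  have hL2 : 2 ≤ L := by
    rw [hL, Real.le_log_iff_exp_le hT0]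
    have h1 := Real.exp_one_lt_d9
    have h2 : Real.exp 2 = Real.exp 1 ^ 2 := by rw [← Real.exp_nat_mul]; norm_num
    rw [h2]
    nlinarith [Real.exp_pos 1]
  have hL0 : 0 < L := by linarith
  have hLM' := hLM T n hTTL hn1 hnL
  rw [← hL] at hn1 hnL ⊢
  have hn0 : (0 : ℝ) < n := lt_of_lt_of_le (by positivity) hn1
  have hlog3 : Real.log (3 * T) ≤ 2 * L := by
    rw [Real.log_mul (by norm_num) hT0.ne', ← hL]
    have : Real.log 3 ≤ 2 := by
      have := Real.log_le_sub_one_of_pos (show (0 : ℝ) < 3 by norm_num)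
      linarith
    linarith
  have hloghalf : ∀ x : ℝ, T / 2 ≤ x → (n : ℝ) ≤ 60 * Real.log x := by
    intro x hx
    have h10 : Real.log (T / 2) ≤ Real.log x := Real.log_le_log (by positivity) hx
    have h11 : Real.log (T / 2) = L - Real.log 2 := by
      rw [Real.log_div hT0.ne' (by norm_num), hL]
    have h12 : Real.log 2 ≤ 1 := by
      have := Real.log_le_sub_one_of_pos (show (0 : ℝ) < 2 by norm_num)
      linarith
    linarith
  obtain ⟨r, hr⟩ : ∃ r : ℝ, r = ra T n := ⟨_, rfl⟩
  rw [← hr] at hLM'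
  have hrn : r = 2 * n / L := by rw [hr, hL]; exact ra_eq _ _
  have hr1 : 2 * κ1 ≤ r := by
    rw [hrn, le_div_iff₀ hL0]; linarith
  have hr2 : r ≤ 2 := by
    rw [hrn, div_le_iff₀ hL0]; linarith
  have hr0 : 0 < r := by linarith
  have hδ0 : 0 < r / 100 := by positivity
  have h10 := cover (wt n) (wt_nonneg n) (fun s => s.im) (r / 100) (4 * C5 * L)
    hδ0 (by positivity) S _ (CL * T * Real.exp (-(κt * n))) (by positivity)
    (by
      intro s hs
      obtain ⟨hbad, hs1, hs2⟩ := hS s hs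
      intro x hx
      refine ⟨by linarith [hx.1], by linarith [hx.2], s, hbad, ?_⟩
      rw [abs_le]; constructor <;> linarith [hx.1, hx.2])
    hLM'
    (by
      intro s0 hs0
      obtain ⟨hbad0, hs1, hs2⟩ := hS s0 hs0
      have h11 := window hC5 hT5 hunit n (s0.im - 2 * (r / 100))
        (4 * (r / 100)) (by linarith) (hloghalf _ (by linarith)) (by positivity)
        (S.filter (fun s' => |s'.im - s0.im| ≤ 2 * (r / 100))) (by
          intro s hs
          rw [Finset.mem_filter] at hs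
          obtain ⟨hbad, hs3, hs4⟩ := hS s hs.1
          have := abs_le.1 hs.2
          exact ⟨by linarith, by linarith, hbad.1⟩)
      refine h11.trans ?_
      have h12 : Real.log (s0.im - 2 * (r / 100) + 4 * (r / 100)) ≤
          2 * L := (Real.log_le_log (by linarith) (by linarith)).trans hlog3
      have h13 : 4 * (r / 100) + 1 ≤ 2 := by linarith
      calc (4 * (r / 100) + 1) *
            (C5 * Real.log (s0.im - 2 * (r / 100) + 4 * (r / 100)))
          ≤ 2 * (C5 * (2 * L)) := by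
            apply mul_le_mul h13 (mul_le_mul_of_nonneg_left h12 hC5.le) _ (by norm_num)
            apply mul_nonneg hC5.le (Real.log_nonneg (by linarith))
        _ = 4 * C5 * L := by ring)
  refine h10.trans ?_
  rw [div_le_iff₀ (by positivity)]
  have h11 : κ1 / 25 ≤ 2 * (r / 100) := by linarith
  have h12 : 0 ≤ 100 * C5 * CL / κ1 * T * Real.exp (-(κt * n)) * L := by positivity
  calc 4 * C5 * L * (CL * T * Real.exp (-(κt * n)))
      = 100 * C5 * CL / κ1 * T * Real.exp (-(κt * n)) * L * (κ1 / 25) := by field_simp; ring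
    _ ≤ _ := mul_le_mul_of_nonneg_left h11 h12

end Pool.Agent.Zk5.DH
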