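import Pool.Agent.H24R2.DZ.Spec
import Pool.Agent.H986R2.K4.Win
import Pool.Agent.H986R2.K4.AW

set_option autoImplicit false

/-!
DH4, task (G), preparation: no zeros of the derivatives at distances comparable with a good scale
(`SB3`), and the pigeonhole over the scales (`SPtA`).
-/

namespace Pool.Agent.Zk5.DH

open Complex Filter Topology MeasureTheory Set
open Pool.Agent.H24R2.JP (XX)
open Pool.Agent.H24R2.DZ

theorem sb3 (h : SB2) : SB3 := by
  obtain ⟨η, hη, hsb⟩ := h
  refine ⟨η, hη, ?_⟩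
  intro a n F hn hna hN
  have hn0 : (0 : ℝ) < n := by exact_mod_cast hn
  have ha0 : 0 < a := lt_of_lt_of_le hn0 hna
  -- the right half
  have key : ∀ z : ℂ, 2 ≤ z.re → z.re ≤ 5 → |z.im| ≤ 1 → iteratedDeriv n F z ≠ 0 := by
    intro z h1 h2 h3
    obtain ⟨q, hq⟩ : ∃ q : ℝ, q = n / a := ⟨_, rfl⟩
    have hq0 : 0 < q := by rw [hq]; positivity
    have hq1 : q ≤ 1 := by rw [hq, div_le_one ha0]; exact hna
    have hqa : q * a = n := by rw [hq]; field_simp
    obtain ⟨G, hG⟩ : ∃ G : ℂ → ℂ, G = fun w => F (((1 - q : ℝ) : ℂ) * z + (q : ℂ) * w) := ⟨_, rfl⟩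
    have hGz : ((1 - q : ℝ) : ℂ) * z + (q : ℂ) * z = z := by push_cast; ring
    have hGn : iteratedDeriv n G z = (q : ℂ) ^ n * iteratedDeriv n F z := by
      rw [hG, Pool.Agent.H986R2.K4.WinAux.scale hN.diff, hGz]
    have hball : ∀ w ∈ Metric.ball z (3 / 2), DifferentiableAt ℂ G w ∧ G w ≠ 0 ∧
        ‖logDeriv G w - n‖ ≤ η * n := by
      intro w hw
      rw [Metric.mem_ball, dist_eq_norm] at hw
      obtain ⟨u, hu⟩ : ∃ u : ℂ, u = ((1 - q : ℝ) : ℂ) * z + (q : ℂ) * w := ⟨_, rfl⟩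
      have hu' : u = z + (q : ℂ) * (w - z) := by rw [hu]; push_cast; ring
      have hqw : ‖(q : ℂ) * (w - z)‖ ≤ 3 / 2 := by
        rw [norm_mul, Complex.norm_real, Real.norm_of_nonneg hq0.le]
        nlinarith [norm_nonneg (w - z)]
      have hure : 1 / 1000 ≤ u.re := by
        have h5 := Complex.abs_re_le_norm ((q : ℂ) * (w - z))
        have h6 := neg_abs_le ((q : ℂ) * (w - z)).re
        rw [hu', Complex.add_re]
        linarith
      have hun : ‖u‖ ≤ 20 := by
        rw [hu']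
        have h5 := norm_add_le z ((q : ℂ) * (w - z))
        have h6 := Complex.norm_le_abs_re_add_abs_im z
        rw [abs_of_nonneg (by linarith : (0 : ℝ) ≤ z.re)] at h6
        linarith
      obtain ⟨hf1, hf2⟩ := hN.far u hure hun
      have hd : HasDerivAt G (deriv F u * q) w := by
        rw [hG]
        have h7 : HasDerivAt (fun w : ℂ => ((1 - q : ℝ) : ℂ) * z + (q : ℂ) * w) (q : ℂ) w := by
          have := ((hasDerivAt_id w).const_mul (q : ℂ)).const_add (((1 - q : ℝ) : ℂ) * z)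
          simpa using this
        have h8 : HasDerivAt F (deriv F u) u := (hN.diff u).hasDerivAt
        rw [hu] at h8
        have h9 := h8.comp w h7
        rw [← hu] at h9
        exact h9
      refine ⟨hd.differentiableAt, ?_, ?_⟩
      · rw [hG]
        show F (((1 - q : ℝ) : ℂ) * z + (q : ℂ) * w) ≠ 0
        rw [← hu]; exact hf1
      · have h10 : logDeriv G w = (q : ℂ) * logDeriv F u := by
          rw [logDeriv_apply, logDeriv_apply, hd.deriv, hG]
          show deriv F u * q / F (((1 - q : ℝ) : ℂ) * z + (q : ℂ) * w) = _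
          rw [← hu]
          ring
        have h11 : (q : ℂ) * logDeriv F u - n = (q : ℂ) * (logDeriv F u - (a : ℂ)) := by
          have : ((n : ℝ) : ℂ) = (q : ℂ) * (a : ℂ) := by rw [← hqa]; push_cast; ring
          rw [Complex.ofReal_natCast] at this
          rw [this]; ring
        rw [h10, h11, norm_mul, Complex.norm_real, Real.norm_of_nonneg hq0.le]
        calc q * ‖logDeriv F u - (a : ℂ)‖ ≤ q * (η * a) := by gcongr
          _ = η * n := by rw [← hqa]; ring
    have h12 := hsb n z G hn hball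
    intro hcon
    rw [hGn, hcon, mul_zero, norm_zero, mul_zero] at h12
    have h13 : 0 < (n.factorial : ℝ) * ‖G z‖ :=
      mul_pos (by exact_mod_cast n.factorial_pos)
        (norm_pos_iff.2 (hball z (Metric.mem_ball_self (by norm_num))).2.1)
    linarith
  intro z h1 h2 h3
  rcases le_total 0 z.re with h0 | h0
  · rw [abs_of_nonneg h0] at h1 h2
    exact key z h1 h2 h3
  · rw [abs_of_nonpos h0] at h1 h2
    have h4 := (Pool.Agent.H986R2.K4.AWAux.symm_iter hN.diff hN.symm n).2 z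
    have h5 := key (-((starRingEnd ℂ) z)) (by simpa using h1) (by simpa using h2) (by simpa using h3)
    intro hcon
    rw [hcon] at h4
    apply h5
    rw [h4]
    simp

theorem ra_pos {T a : ℝ} (hT : 2 ≤ T) (ha : 0 < a) : 0 < ra T a := by
  unfold ra
  have : 0 < Real.log T := Real.log_pos (by linarith)
  positivity

theorem pta (h : SB3) : SPtA := by
  obtain ⟨η, hη, hsb⟩ := h
  refine ⟨η, hη, ?_⟩
  intro T n J j0 s hT hn hj0 hs hloc
  by_contra hcon
  push Not at hcon
  obtain ⟨hc1, hc2⟩ := hcon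
  have hn0 : (0 : ℝ) < n := by exact_mod_cast hn
  -- the scale of the zero
  obtain ⟨j, hj1, hj2, hj3, hj4⟩ : ∃ j : ℕ, j0 < j ∧ j ≤ J ∧ |s.re| ≤ 5 * ra T (2 ^ j * n) ∧
      5 * ra T (2 ^ (j - 1) * n) < |s.re| := by
    classical
    have hex : ∃ j : ℕ, j0 ≤ j ∧ j ≤ J ∧ |s.re| ≤ 5 * ra T (2 ^ j * n) := ⟨J, hj0, le_rfl, hc2⟩
    have hspec := Nat.find_spec hex
    have hmin := fun m (hm : m < Nat.find hex) => Nat.find_min hex hm
    obtain ⟨h1, h2, h3⟩ := hspec
    have h4 : j0 < Nat.find hex := by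
      rcases h1.lt_or_eq with h5 | h5
      · exact h5
      · rw [← h5] at h3
        linarith
    refine ⟨Nat.find hex, h4, h2, h3, ?_⟩
    have h5 := hmin (Nat.find hex - 1) (by omega)
    by_contra h6
    push Not at h6
    exact h5 ⟨by omega, by omega, h6⟩
  obtain ⟨t', ht', hN⟩ := hloc j hj1.le hj2
  obtain ⟨r, hr⟩ : ∃ r : ℝ, r = ra T (2 ^ j * n) := ⟨_, rfl⟩
  have hr0 : 0 < r := by rw [hr]; exact ra_pos hT (by positivity)
  have hhalf : ra T (2 ^ (j - 1) * n) = r / 2 := by
    rw [hr]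
    obtain ⟨i, rfl⟩ : ∃ i, j = i + 1 := ⟨j - 1, by omega⟩
    rw [Nat.add_sub_cancel, pow_succ]
    unfold ra
    ring
  rw [hhalf] at hj4
  rw [← hr] at hj3 ht' hN
  -- the local variable
  obtain ⟨z, hz⟩ : ∃ z : ℂ, z = (⟨s.re / r, (s.im - t') / r⟩ : ℂ) := ⟨_, rfl⟩
  have hsz : I * (t' : ℂ) + (r : ℂ) * z = s := by
    rw [hz]
    apply Complex.ext
    · simp only [add_re, mul_re, I_re, ofReal_re, I_im, ofReal_im]
      field_simp
      ring
    · simp only [add_im, mul_im, I_re, ofReal_re, I_im, ofReal_im]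
      field_simp
      ring
  have hzre : |z.re| = |s.re| / r := by rw [hz]; simp only; rw [abs_div, abs_of_pos hr0]
  have hzim : |z.im| ≤ 1 := by
    rw [hz]; simp only
    rw [abs_div, abs_of_pos hr0, div_le_iff₀ hr0]
    linarith
  have h2j : (n : ℝ) ≤ 2 ^ j * n := le_mul_of_one_le_left hn0.le (one_le_pow₀ (by norm_num))
  have hne := hsb (2 ^ j * n) n _ hn h2j hN z
    (by rw [hzre, le_div_iff₀ hr0]; linarith)
    (by rw [hzre, div_le_iff₀ hr0]; linarith) hzim
  apply hne
  rw [Pool.Agent.H986R2.K4.WinAux.scale Pool.Agent.H986R2.K4.WinAux.diffXX, hsz, hs, mul_zero]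

end Pool.Agent.Zk5.DH
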