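import Pool.Agent.Zk5.DH.Mid4
import Pool.Agent.Zk5.DH.B4
import Pool.Agent.Zk5.DH.Pta
import Pool.Agent.Zk5.DH.Fin
import Pool.Agent.TH850.UR.SelDens

set_option autoImplicit false

/-! # Tasks G and H: only the measure estimates `S_LM`, `S_LM2` remain as hypotheses. -/

namespace Pool.Agent.Zk5.DH

open Pool.Agent.Zk1.DH

theorem sm4 (hLM : S_LM) : S_M4 :=
  sm4' hLM Pool.Agent.W186.SD.sc1 Pool.Agent.TH850.UR.sc2 W327.SD.sfar
    Pool.Agent.TH850.UR.scount Pool.Agent.TH850.UR.sunit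
    (Pool.Agent.H24R2.DZ.cir Pool.Agent.H24R2.DZ.strip) (pta (sb3 Pool.Agent.TH850.UR.sb2))
    Pool.Agent.H24R2.DZ.strip Pool.Agent.TH850.UR.XX_diff

theorem sb4 (hLM2 : S_LM2) : S_B4 := sb4' hLM2 Pool.Agent.TH850.UR.sunit

theorem sfin_all (hLM : S_LM) (hLM2 : S_LM2) : S_FIN :=
  sfin (sm4 hLM) (sb4 hLM2) Pool.Agent.TH850.UR.sunit

end Pool.Agent.Zk5.DH
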