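import Pool.Agent.Zk1.DH.Spec
import Pool.Agent.W571.SD.Mid

set_option autoImplicit false

/-!
DH4, task (G): counting, small `n / log T` (adapted from `W571.SD.Mid`: the scales below `j1` are
replaced by the measure bound `S_LM`).
-/

namespace Pool.Agent.Zk5.DH

open Complex Filter Topology MeasureTheory Set
open Pool.Agent.H24R2.JP (XX)
open Pool.Agent.H24R2.DZ
open Pool.Agent.W571.SD
open Pool.Agent.Zk1.DH (S_LM S_M4 S_LM2 S_B4)

/-- the zeros that are not near the line at the scale `j1` -/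
theorem classes {η T : ℝ} {n j1 J : ℕ} {η7 : ℝ} (hηη7 : η ≤ η7)
    (hptA : ∀ (T : ℝ) (n J j0 : ℕ) (s : ℂ), 2 ≤ T → 1 ≤ n → j0 ≤ J →
      iteratedDeriv n XX s = 0 → Loc η7 T n j0 J s.im →
      |s.re| ≤ 5 * ra T (2 ^ j0 * n) ∨ 5 * ra T (2 ^ J * n) < |s.re|)
    (hT : 2 ≤ T) (hn1 : 1 ≤ n) (hJ : j1 ≤ J) (s : ℂ) (hz : iteratedDeriv n XX s = 0) :
    ¬ GJ η T n J s.im ∨ 5 * ra T (2 ^ J * n) < |s.re| ∨
      (∃ i < J - j1, ¬ GJ η T n (j1 + i) s.im ∧ GJ η T n (j1 + i + 1) s.im ∧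
        |s.re| ≤ 5 * ra T (2 ^ (j1 + i + 1) * n)) ∨
      (GJ η T n j1 s.im ∧ |s.re| ≤ 5 * ra T (2 ^ j1 * n)) := by
  classical
  by_cases hc : GJ η T n J s.im
  swap
  · exact Or.inl hc
  by_cases hf : 5 * ra T (2 ^ J * n) < |s.re|
  · exact Or.inr (Or.inl hf)
  right; right
  have hloc : ∀ (j0 : ℕ), (∀ j, j0 ≤ j → j ≤ J → GJ η T n j s.im) →
      Loc η7 T n j0 J s.im := by
    intro j0 h j hj1 hj2
    obtain ⟨t', ht1, ht2⟩ := h j hj1 hj2
    exact ⟨t', ht1, nn_mono (by positivity) hηη7 ht2⟩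
  by_cases hall : ∀ j, j1 ≤ j → j ≤ J → GJ η T n j s.im
  · right
    refine ⟨hall j1 le_rfl hJ, ?_⟩
    exact (hptA T n J j1 s hT hn1 hJ hz (hloc j1 hall)).resolve_right hf
  · left
    push Not at hall
    obtain ⟨j2, hj2, hj2', hj2''⟩ := hall
    obtain ⟨i, hi⟩ : ∃ i, i = Nat.findGreatest (fun j => ¬ GJ η T n j s.im) J := ⟨_, rfl⟩
    have hi1 : ¬ GJ η T n i s.im := by
      rw [hi]
      exact Nat.findGreatest_spec (P := fun j => ¬ GJ η T n j s.im) hj2' hj2''
    have hi2 : i ≤ J := by rw [hi]; exact Nat.findGreatest_le J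
    have hi0 : j2 ≤ i := by
      rw [hi]
      exact Nat.le_findGreatest (P := fun j => ¬ GJ η T n j s.im) hj2' hj2''
    have hi3 : i < J := by
      rcases hi2.lt_or_eq with h | h
      · exact h
      · rw [h] at hi1; exact absurd hc hi1
    have hi4 : ∀ j, i + 1 ≤ j → j ≤ J → GJ η T n j s.im := by
      intro j hj1 hj2
      by_contra hcon
      have := Nat.le_findGreatest (P := fun j => ¬ GJ η T n j s.im) hj2 hcon
      rw [← hi] at this
      omega
    obtain ⟨d, hd⟩ := Nat.exists_eq_add_of_le (hj2.trans hi0)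
    refine ⟨d, by omega, ?_, ?_, ?_⟩
    · rw [← hd]; exact hi1
    · rw [← hd]; exact hi4 (i + 1) le_rfl hi3
    · rw [← hd]
      exact (hptA T n J (i + 1) s hT hn1 hi3 hz (hloc (i + 1) hi4)).resolve_right hf

theorem sm4' (hLM : S_LM) (h1 : SC1) (h2 : SC2) (h3 : SFar) (h4 : SCount) (h5 : SUnit)
    (h6 : SCir) (h7 : SPtA) (hstrip : SStrip) (hdiff : Differentiable ℂ XX) : S_M4 := by
  classical
  intro κt hκt0 hκt4
  obtain ⟨η4, C4, hη4, hC4, hcount⟩ := h4
  obtain ⟨η7, hη7, hptA⟩ := h7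
  obtain ⟨η, hηd⟩ : ∃ η : ℝ, η = min η4 η7 := ⟨_, rfl⟩
  have hη : 0 < η := by rw [hηd]; exact lt_min hη4 hη7
  have hηη4 : η ≤ η4 := by rw [hηd]; exact min_le_left _ _
  have hηη7 : η ≤ η7 := by rw [hηd]; exact min_le_right _ _
  obtain ⟨η1, ε1, hη1, hε1, hsc2⟩ := h2 η hη
  obtain ⟨θ, c1, C1, a1, T1, hθ, hθ', hc1, hC1, ha1, hT1, hsc1⟩ := h1 η1 ε1 hη1 hε1
  obtain ⟨a2, T2, hsc2'⟩ := hsc2 θ hθ hθ'
  obtain ⟨c3, C3, T3, hc3, hC3, hT3, hfar⟩ := h3
  obtain ⟨C5, T5, hC5, hT5, hunit⟩ := h5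
  -- the first scale
  obtain ⟨j1, hj1⟩ : ∃ j1 : ℕ, 4 ≤ c1 * 2 ^ j1 := by
    obtain ⟨j1, h⟩ := pow_unbounded_of_one_lt (4 / c1) (show (1 : ℝ) < 2 by norm_num)
    refine ⟨j1, ?_⟩
    rw [div_lt_iff₀ hc1] at h
    linarith
  have hj10 : (0 : ℝ) < 2 ^ j1 := by positivity
  have hj11 : (1 : ℝ) ≤ 2 ^ j1 := one_le_pow₀ (by norm_num)
  obtain ⟨κa, CL, TL, nL, hκa, hCL, hTL, hLM⟩ := hLM κt (5 * 2 ^ j1) hκt0 hκt4 (by linarith)
  obtain ⟨Q, hQ⟩ : ∃ Q : ℝ, Q = 1 / (1 - Real.exp (-4)) := ⟨_, rfl⟩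
  have hQ0 : 0 < Q := by
    rw [hQ]; apply one_div_pos.2
    have : Real.exp (-4) < 1 := Real.exp_lt_one_iff.2 (by norm_num)
    linarith
  obtain ⟨κ1, hκ1⟩ : ∃ κ1 : ℝ, κ1 = min κa (min (1 / (400 * 2 ^ j1)) (c3 / 8)) := ⟨_, rfl⟩
  have hκ10 : 0 < κ1 := by
    rw [hκ1]; exact lt_min hκa (lt_min (by positivity) (by positivity))
  have hκ1a : κ1 ≤ κa := by rw [hκ1]; exact min_le_left _ _
  have hκ1b : κ1 ≤ 1 / (400 * 2 ^ j1) := by
    rw [hκ1]; exact (min_le_right _ _).trans (min_le_left _ _)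
  have hκ1c : κ1 ≤ c3 / 8 := by rw [hκ1]; exact (min_le_right _ _).trans (min_le_right _ _)
  refine ⟨κ1, 40000 * C5 * C1 + 50 * C4 * C1 * Q + 4 * C5 * C3 / c3 + 25 * C4 * 2 ^ j1 * CL,
    max (max (max T1 T2) (max T3 TL)) (max (2 * T5) 1000),
    max nL (max ⌈a1⌉₊ (max ⌈a2⌉₊ 1)), hκ10, by positivity, ?_, ?_⟩
  · exact le_trans (by norm_num) ((le_max_right _ _).trans (le_max_right _ _))
  intro T n hT hn hnL S hS
  -- unpack the sizes
  have hTT1 : T1 ≤ T := ((le_max_left _ _).trans ((le_max_left _ _).trans (le_max_left _ _))).trans hT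
  have hTT2 : T2 ≤ T := ((le_max_right _ _).trans ((le_max_left _ _).trans (le_max_left _ _))).trans hT
  have hTT3 : T3 ≤ T := ((le_max_left _ _).trans ((le_max_right _ _).trans (le_max_left _ _))).trans hT
  have hTTL : TL ≤ T := ((le_max_right _ _).trans ((le_max_right _ _).trans (le_max_left _ _))).trans hT
  have hTT5 : 2 * T5 ≤ T := ((le_max_left _ _).trans (le_max_right _ _)).trans hT
  have hT1000 : 1000 ≤ T := ((le_max_right _ _).trans (le_max_right _ _)).trans hT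
  have hT0 : 0 < T := by linarith
  have hnnL : nL ≤ n := (le_max_left _ _).trans hn
  have hna1 : a1 ≤ n := by
    have : ⌈a1⌉₊ ≤ n := ((le_max_left _ _).trans (le_max_right _ _)).trans hn
    exact (Nat.le_ceil a1).trans (by exact_mod_cast this)
  have hna2 : a2 ≤ n := by
    have : ⌈a2⌉₊ ≤ n := ((le_max_left _ _).trans ((le_max_right _ _).trans (le_max_right _ _))).trans hn
    exact (Nat.le_ceil a2).trans (by exact_mod_cast this)
  have hn1 : 1 ≤ n := ((le_max_right _ _).trans ((le_max_right _ _).trans (le_max_right _ _))).trans hn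
  have hn1' : (1 : ℝ) ≤ n := by exact_mod_cast hn1
  obtain ⟨L, hL⟩ : ∃ L : ℝ, L = Real.log T := ⟨_, rfl⟩
  rw [← hL] at hnL ⊢
  have hL00 : 0 < L := by rw [hL]; exact Real.log_pos (by linarith)
  have hj1n : 2 ^ j1 * (n : ℝ) ≤ L / 400 := by
    have h9 : (n : ℝ) ≤ 1 / (400 * 2 ^ j1) * L := hnL.trans (by gcongr)
    calc 2 ^ j1 * (n : ℝ) ≤ 2 ^ j1 * (1 / (400 * 2 ^ j1) * L) := by gcongr
      _ = L / 400 := by field_simp
  have hnL400 : (n : ℝ) ≤ L / 400 := by
    refine le_trans ?_ hj1n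
    exact le_mul_of_one_le_left (by positivity) hj11
  have hL400 : 400 ≤ L := by linarith
  have hL0 : 0 < L := by linarith
  have hLT : L ≤ T := by
    have := Real.log_le_sub_one_of_pos hT0
    rw [hL]
    linarith
  have hlog3 : Real.log (3 * T) ≤ 2 * L := by
    rw [Real.log_mul (by norm_num) hT0.ne', ← hL]
    have : Real.log 3 ≤ 2 := by
      have := Real.log_le_sub_one_of_pos (show (0 : ℝ) < 3 by norm_num)
      linarith
    linarith
  have hloghalf : ∀ x : ℝ, T / 2 ≤ x → (n : ℝ) ≤ 60 * Real.log x := by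
    intro x hx
    have h10 : Real.log (T / 2) ≤ Real.log x := Real.log_le_log (by positivity) hx
    have h11 : Real.log (T / 2) = L - Real.log 2 := by
      rw [Real.log_div hT0.ne' (by norm_num), hL]
    have h12 : Real.log 2 ≤ 1 := by
      have := Real.log_le_sub_one_of_pos (show (0 : ℝ) < 2 by norm_num)
      linarith
    linarith
  obtain ⟨J', hJ1', hJ2', hJ3'⟩ := exists_J (n := 2 ^ j1 * n) (L := L)
    (Nat.mul_pos (by positivity) hn1) (by push_cast; exact hj1n)
  push_cast at hJ2' hJ3'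
  obtain ⟨J, hJ⟩ : ∃ J : ℕ, J = j1 + J' := ⟨_, rfl⟩
  have hJpow : (2 : ℝ) ^ J * n = 2 ^ J' * (2 ^ j1 * n) := by rw [hJ, pow_add]; ring
  have hJ2 : (2 : ℝ) ^ J * n ≤ L / 200 := by rw [hJpow]; exact hJ2'
  have hJ3 : L / 400 < (2 : ℝ) ^ J * n := by rw [hJpow]; exact hJ3'
  have hJj1 : j1 ≤ J := by omega
  -- the radii
  have hr : ∀ j : ℕ, ra T (2 ^ j * n) = 2 * (2 ^ j * n) / L := fun j => by rw [hL]; exact ra_eq _ _
  have hrn : ra T n = 2 * n / L := by rw [hL]; exact ra_eq _ _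
  have hrpos : ∀ j : ℕ, 0 < ra T (2 ^ j * n) := by
    intro j; rw [hr]; positivity
  have hrJ1 : ra T (2 ^ J * n) ≤ 1 / 100 := by
    rw [hr, div_le_iff₀ hL0]; linarith
  have hrJ2 : 1 / 200 < ra T (2 ^ J * n) := by
    rw [hr, lt_div_iff₀ hL0]; linarith
  have hpow : ∀ j : ℕ, j ≤ J → (2 : ℝ) ^ j * n ≤ L / 200 := by
    intro j hj
    refine le_trans ?_ hJ2
    apply mul_le_mul_of_nonneg_right _ (by positivity)
    exact pow_le_pow_right₀ (by norm_num) hj
  have hpow1 : ∀ j : ℕ, (n : ℝ) ≤ 2 ^ j * n := by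
    intro j
    exact le_mul_of_one_le_left (by positivity) (one_le_pow₀ (by norm_num))
  have hrj : ∀ j : ℕ, j ≤ J → ra T (2 ^ j * n) ≤ 1 / 100 := by
    intro j hj
    rw [hr, div_le_iff₀ hL0]
    have := hpow j hj
    linarith
  have hc1j : ∀ j : ℕ, j1 ≤ j → 4 * (n : ℝ) ≤ c1 * (2 ^ j * n) := by
    intro j hj
    have h10 : (2 : ℝ) ^ j1 ≤ 2 ^ j := pow_le_pow_right₀ (by norm_num) hj
    calc 4 * (n : ℝ) ≤ (c1 * 2 ^ j1) * n := by gcongr
      _ ≤ (c1 * 2 ^ j) * n := by gcongr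
      _ = _ := by ring
  have he4 : Real.exp (-(4 * (n : ℝ))) ≤ Real.exp (-(κt * n)) := by
    apply Real.exp_le_exp.2
    nlinarith
  -- bad heights
  have hBvol : ∀ j : ℕ, j ≤ J → volume (BB η T (2 ^ j * n)) ≤
      ENNReal.ofReal (C1 * T * Real.exp (-(c1 * (2 ^ j * n)))) := by
    intro j hj
    refine le_trans (measure_mono ?_) (hsc1 T (2 ^ j * n) hTT1 (hna1.trans (hpow1 j))
      (by rw [← hL]; exact hpow j hj))
    intro t0 ht0
    refine ⟨ht0.1, ht0.2.1, fun hG => ht0.2.2 ?_⟩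
    exact hsc2' T (2 ^ j * n) t0 hTT2 (hna2.trans (hpow1 j)) (by rw [← hL]; exact hpow j hj)
      ht0.1 ht0.2.1 hG
  -- the class (a)
  obtain ⟨pa, hpa⟩ : ∃ pa : ℂ → Prop, pa = fun s => GJ η T n j1 s.im ∧
      |s.re| ≤ 5 * ra T (2 ^ j1 * n) := ⟨_, rfl⟩
  have hba : ∑ s ∈ S.filter pa, wt n s ≤ 25 * C4 * 2 ^ j1 * CL * T * Real.exp (-(κt * n)) * L := by
    have hri1 := hrpos j1
    have hra0 : 0 < ra T n := by rw [hrn]; positivity
    have hra1 : ra T (2 ^ j1 * n) = 2 ^ j1 * ra T n := by rw [hr, hrn]; ring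
    have hra2 : ra T n ≤ ra T (2 ^ j1 * n) := by
      rw [hra1]; exact le_mul_of_one_le_left hra0.le hj11
    have hδ0 : 0 < ra T n / 100 := by positivity
    have hrj1 := hrj j1 hJj1
    have h10 := cover (wt n) (wt_nonneg n) (fun s => s.im) (ra T n / 100)
      (C4 * (2 ^ j1 * n)) hδ0 (by positivity) (S.filter pa)
      {t : ℝ | T / 2 ≤ t ∧ t ≤ 3 * T ∧ ∃ s : ℂ, bad n s ∧ |s.im - t| ≤ ra T n / 100 ∧
        |s.re| ≤ 5 * 2 ^ j1 * ra T n} (CL * T * Real.exp (-(κt * n))) (by positivity)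
      (by
        intro s hs
        rw [Finset.mem_filter, hpa] at hs
        obtain ⟨hbad, hs1, hs2⟩ := hS s hs.1
        intro x hx
        refine ⟨by linarith [hx.1], by linarith [hx.2], s, hbad, ?_, ?_⟩
        · rw [abs_le]; constructor <;> linarith [hx.1, hx.2]
        · have := hs.2.2
          rw [hra1] at this
          linarith)
      (hLM T n hTTL hnnL (by rw [← hL]; exact hnL.trans (by gcongr)))
      (by
        intro s0 hs0
        rw [Finset.mem_filter, hpa] at hs0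
        obtain ⟨hs0S, ⟨t', ht1, ht2⟩, -⟩ := hs0
        have h11 := hcount (2 ^ j1 * n) (ra T (2 ^ j1 * n)) t' n XX
          (hn1'.trans (hpow1 _)) (hpow1 _) hri1 hdiff (nn_mono (by positivity) hηη4 ht2)
          ((S.filter pa).filter (fun s' => |s'.im - s0.im| ≤ 2 * (ra T n / 100))) (by
            intro s hs
            rw [Finset.mem_filter, Finset.mem_filter, hpa] at hs
            obtain ⟨⟨hsS, -, hre⟩, him⟩ := hs
            refine ⟨?_, (hS s hsS).1.1⟩
            have h12 : (s - I * t').re = s.re := by simp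
            have h13 : (s - I * t').im = s.im - t' := by simp
            have h14 := Complex.norm_le_abs_re_add_abs_im (s - I * t')
            rw [h12, h13] at h14
            have h15 : |s.im - t'| ≤ |s.im - s0.im| + |s0.im - t'| := abs_sub_le _ _ _
            linarith)
        exact h11)
    refine h10.trans (le_of_eq ?_)
    rw [hrn]
    field_simp
    ring
  -- the other classes
  obtain ⟨S', hS'⟩ : ∃ S' : Finset ℂ, S' = S.filter (fun s => ¬ pa s) := ⟨_, rfl⟩
  have hSS' : ∀ s ∈ S', bad n s ∧ T < s.im ∧ s.im ≤ 2 * T := by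
    intro s hs
    rw [hS', Finset.mem_filter] at hs
    exact hS s hs.1
  have hcov : ∀ s ∈ S', ¬ GJ η T n J s.im ∨ 5 * ra T (2 ^ J * n) < |s.re| ∨
      ∃ i < J', ¬ GJ η T n (j1 + i) s.im ∧ GJ η T n (j1 + i + 1) s.im ∧
        |s.re| ≤ 5 * ra T (2 ^ (j1 + i + 1) * n) := by
    intro s hs
    rw [hS', Finset.mem_filter] at hs
    have h10 := classes hηη7 hptA (show 2 ≤ T by linarith) hn1 hJj1 s (hS s hs.1).1.1
    rcases h10 with h10 | h10 | h10 | h10
    · exact Or.inl h10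
    · exact Or.inr (Or.inl h10)
    · obtain ⟨i, hi, h11⟩ := h10
      exact Or.inr (Or.inr ⟨i, by omega, h11⟩)
    · exact absurd (by rw [hpa]; exact h10) hs.2
  have hsplit := split3 (wt n) (wt_nonneg n) S' (fun s => ¬ GJ η T n J s.im)
    (fun s => 5 * ra T (2 ^ J * n) < |s.re|)
    (fun i s => ¬ GJ η T n (j1 + i) s.im ∧ GJ η T n (j1 + i + 1) s.im ∧
      |s.re| ≤ 5 * ra T (2 ^ (j1 + i + 1) * n))
    J' hcov
  -- the class (c)
  have hbc : ∑ s ∈ S'.filter (fun s => ¬ GJ η T n J s.im), wt n s ≤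
      40000 * C5 * C1 * T * Real.exp (-(4 * n)) * L := by
    have hδ0 : 0 < ra T (2 ^ J * n) / 100 := by have := hrpos J; positivity
    have h10 := cover (wt n) (wt_nonneg n) (fun s => s.im) (ra T (2 ^ J * n) / 100) (4 * C5 * L)
      hδ0 (by positivity) (S'.filter (fun s => ¬ GJ η T n J s.im))
      (BB η T (2 ^ J * n)) (C1 * T * Real.exp (-(c1 * (2 ^ J * n)))) (by positivity)
      (by
        intro s hs
        rw [Finset.mem_filter] at hs
        obtain ⟨hbad, hs1, hs2⟩ := hSS' s hs.1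
        exact int_sub_B (by linarith) hs1 hs2 rfl (by linarith) hs.2)
      (hBvol J le_rfl)
      (by
        intro s0 hs0
        obtain ⟨hbad0, hs1, hs2⟩ := hSS' s0 ((Finset.filter_subset _ _) hs0)
        have h11 := window hC5 hT5 hunit n (s0.im - 2 * (ra T (2 ^ J * n) / 100))
          (4 * (ra T (2 ^ J * n) / 100)) (by linarith) (hloghalf _ (by linarith)) (by positivity)
          ((S'.filter (fun s => ¬ GJ η T n J s.im)).filter
            (fun s' => |s'.im - s0.im| ≤ 2 * (ra T (2 ^ J * n) / 100))) (by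
            intro s hs
            rw [Finset.mem_filter] at hs
            obtain ⟨hbad, hs3, hs4⟩ := hSS' s ((Finset.filter_subset _ _) hs.1)
            have := abs_le.1 hs.2
            exact ⟨by linarith, by linarith, hbad.1⟩)
        refine h11.trans ?_
        have h12 : Real.log (s0.im - 2 * (ra T (2 ^ J * n) / 100) + 4 * (ra T (2 ^ J * n) / 100)) ≤
            2 * L := (Real.log_le_log (by linarith) (by linarith)).trans hlog3
        have h13 : 4 * (ra T (2 ^ J * n) / 100) + 1 ≤ 2 := by linarith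
        calc (4 * (ra T (2 ^ J * n) / 100) + 1) *
              (C5 * Real.log (s0.im - 2 * (ra T (2 ^ J * n) / 100) + 4 * (ra T (2 ^ J * n) / 100)))
            ≤ 2 * (C5 * (2 * L)) := by
              apply mul_le_mul h13 (mul_le_mul_of_nonneg_left h12 hC5.le) _ (by norm_num)
              apply mul_nonneg hC5.le (Real.log_nonneg (by linarith))
          _ = 4 * C5 * L := by ring)
    refine h10.trans ?_
    rw [div_le_iff₀ (by positivity)]
    have h14 : Real.exp (-(c1 * (2 ^ J * n))) ≤ Real.exp (-(4 * n)) := by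
      apply Real.exp_le_exp.2
      have := hc1j J hJj1
      linarith
    have h15 : (1 : ℝ) / 10000 ≤ 2 * (ra T (2 ^ J * n) / 100) := by linarith
    have h16 : 0 ≤ 40000 * C5 * C1 * T * Real.exp (-(4 * n)) * L := by positivity
    calc 4 * C5 * L * (C1 * T * Real.exp (-(c1 * (2 ^ J * n))))
        ≤ 4 * C5 * L * (C1 * T * Real.exp (-(4 * n))) := by gcongr
      _ = 40000 * C5 * C1 * T * Real.exp (-(4 * n)) * L * (1 / 10000) := by ring
      _ ≤ _ := mul_le_mul_of_nonneg_left h15 h16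
  -- the classes (b)
  have hbi : ∀ i ∈ Finset.range J', ∑ s ∈ S'.filter (fun s => ¬ GJ η T n (j1 + i) s.im ∧
      GJ η T n (j1 + i + 1) s.im ∧ |s.re| ≤ 5 * ra T (2 ^ (j1 + i + 1) * n)), wt n s ≤
      50 * C4 * C1 * T * L * Real.exp (-(4 * (2 ^ i * n))) := by
    intro i hi
    rw [Finset.mem_range] at hi
    have hri := hrpos (j1 + i)
    have hri1 := hrpos (j1 + i + 1)
    have hdouble : ra T (2 ^ (j1 + i + 1) * n) = 2 * ra T (2 ^ (j1 + i) * n) := by
      rw [hr, hr, pow_succ]; ring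
    have hδ0 : 0 < ra T (2 ^ (j1 + i) * n) / 100 := by positivity
    have h10 := cover (wt n) (wt_nonneg n) (fun s => s.im) (ra T (2 ^ (j1 + i) * n) / 100)
      (C4 * (2 ^ (j1 + i + 1) * n)) hδ0 (by positivity)
      (S'.filter (fun s => ¬ GJ η T n (j1 + i) s.im ∧
        GJ η T n (j1 + i + 1) s.im ∧ |s.re| ≤ 5 * ra T (2 ^ (j1 + i + 1) * n)))
      (BB η T (2 ^ (j1 + i) * n)) (C1 * T * Real.exp (-(c1 * (2 ^ (j1 + i) * n)))) (by positivity)
      (by
        intro s hs
        rw [Finset.mem_filter] at hs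
        obtain ⟨hbad, hs1, hs2⟩ := hSS' s hs.1
        exact int_sub_B (by linarith) hs1 hs2 rfl (by linarith [hrj (j1 + i) (by omega)]) hs.2.1)
      (hBvol (j1 + i) (by omega))
      (by
        intro s0 hs0
        rw [Finset.mem_filter] at hs0
        obtain ⟨hs0S, -, ⟨t', ht1, ht2⟩, -⟩ := hs0
        have h11 := hcount (2 ^ (j1 + i + 1) * n) (ra T (2 ^ (j1 + i + 1) * n)) t' n XX
          (hn1'.trans (hpow1 _)) (hpow1 _) hri1 hdiff (nn_mono (by positivity) hηη4 ht2)
          ((S'.filter (fun s => ¬ GJ η T n (j1 + i) s.im ∧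
            GJ η T n (j1 + i + 1) s.im ∧ |s.re| ≤ 5 * ra T (2 ^ (j1 + i + 1) * n))).filter
            (fun s' => |s'.im - s0.im| ≤ 2 * (ra T (2 ^ (j1 + i) * n) / 100))) (by
            intro s hs
            rw [Finset.mem_filter, Finset.mem_filter] at hs
            obtain ⟨⟨hsS, -, -, hre⟩, him⟩ := hs
            refine ⟨?_, (hSS' s hsS).1.1⟩
            have h12 : (s - I * t').re = s.re := by simp
            have h13 : (s - I * t').im = s.im - t' := by simp
            have h14 := Complex.norm_le_abs_re_add_abs_im (s - I * t')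
            rw [h12, h13] at h14
            have h15 : |s.im - t'| ≤ |s.im - s0.im| + |s0.im - t'| := abs_sub_le _ _ _
            linarith)
        exact h11)
    have h16 : C4 * (2 ^ (j1 + i + 1) * n) * (C1 * T * Real.exp (-(c1 * (2 ^ (j1 + i) * n)))) /
        (2 * (ra T (2 ^ (j1 + i) * n) / 100)) =
        50 * C4 * C1 * T * L * Real.exp (-(c1 * (2 ^ (j1 + i) * n))) := by
      rw [hr (j1 + i), pow_succ]
      field_simp
      ring
    rw [h16] at h10
    refine h10.trans ?_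
    have h17 : Real.exp (-(c1 * (2 ^ (j1 + i) * n))) ≤ Real.exp (-(4 * (2 ^ i * n))) := by
      apply Real.exp_le_exp.2
      have h18 : 4 * ((2 : ℝ) ^ i * n) ≤ c1 * (2 ^ (j1 + i) * n) := by
        calc 4 * ((2 : ℝ) ^ i * n) ≤ (c1 * 2 ^ j1) * (2 ^ i * n) := by gcongr
          _ = _ := by rw [pow_add]; ring
      linarith
    gcongr
  have hbb : ∑ i ∈ Finset.range J', ∑ s ∈ S'.filter (fun s => ¬ GJ η T n (j1 + i) s.im ∧
      GJ η T n (j1 + i + 1) s.im ∧ |s.re| ≤ 5 * ra T (2 ^ (j1 + i + 1) * n)), wt n s ≤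
      50 * C4 * C1 * Q * T * Real.exp (-(4 * n)) * L := by
    refine (Finset.sum_le_sum hbi).trans ?_
    rw [← Finset.mul_sum]
    calc 50 * C4 * C1 * T * L * ∑ i ∈ Finset.range J', Real.exp (-(4 * (2 ^ i * n)))
        ≤ 50 * C4 * C1 * T * L * (Real.exp (-(4 * n)) * Q) := by
          rw [hQ]
          exact mul_le_mul_of_nonneg_left (geo 4 (by norm_num) n J' hn1) (by positivity)
      _ = _ := by ring
  -- the far zeros
  have hbf : ∑ s ∈ S'.filter (fun s => 5 * ra T (2 ^ J * n) < |s.re|), wt n s ≤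
      4 * C5 * C3 / c3 * T * Real.exp (-(4 * n)) * L := by
    have hZ : ∀ s : ℂ, ∃ z : ℂ, bad n s → bad 0 z ∧ |s.re| ≤ |z.re| ∧ |s.im - z.im| ≤ n / 2 := by
      intro s
      by_cases hb : bad n s
      · obtain ⟨z, hz⟩ := iter_cir hstrip h6 0 n s (by rw [zero_add]; exact hb)
        exact ⟨z, fun _ => hz⟩
      · exact ⟨0, fun h => absurd h hb⟩
    choose Z hZ using hZ
    have hE := hfar T hTT3
    have h10 := cover (wt n) (wt_nonneg n) (fun s => (Z s).im) 1 (4 * C5 * L ^ 2)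
      one_pos (by positivity) (S'.filter (fun s => 5 * ra T (2 ^ J * n) < |s.re|))
      _ (C3 * T ^ (1 - c3)) (by positivity)
      (by
        intro s hs
        rw [Finset.mem_filter] at hs
        obtain ⟨hbad, hs1, hs2⟩ := hSS' s hs.1
        obtain ⟨hz1, hz2, hz3⟩ := hZ s hbad
        have hz4 := abs_le.1 hz3
        intro x hx
        refine ⟨?_, ?_, Z s, ?_, ?_, ?_⟩
        · linarith [hx.1, hz4.1, hz4.2]
        · linarith [hx.2, hz4.1, hz4.2]
        · have := hz1.1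
          simpa using this
        · linarith [hs.2]
        · rw [abs_le]; constructor <;> linarith [hx.1, hx.2])
      hE
      (by
        intro s0 hs0
        obtain ⟨hbad0, hs1, hs2⟩ := hSS' s0 ((Finset.filter_subset _ _) hs0)
        obtain ⟨-, -, hz3⟩ := hZ s0 hbad0
        have hz4 := abs_le.1 hz3
        have h11 := window hC5 hT5 hunit n ((Z s0).im - 2 - n / 2) (4 + n) (by linarith)
          (hloghalf _ (by linarith)) (by positivity)
          ((S'.filter (fun s => 5 * ra T (2 ^ J * n) < |s.re|)).filter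
            (fun s' => |(Z s').im - (Z s0).im| ≤ 2 * 1)) (by
            intro s hs
            rw [Finset.mem_filter] at hs
            obtain ⟨hbad, hs3, hs4⟩ := hSS' s ((Finset.filter_subset _ _) hs.1)
            obtain ⟨-, -, hz5⟩ := hZ s hbad
            have h12 := abs_le.1 hs.2
            have h13 := abs_le.1 hz5
            exact ⟨by linarith, by linarith, hbad.1⟩)
        refine h11.trans ?_
        have h12 : Real.log ((Z s0).im - 2 - n / 2 + (4 + n)) ≤
            2 * L := (Real.log_le_log (by linarith) (by linarith)).trans hlog3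
        have h13 : (4 : ℝ) + n + 1 ≤ 2 * L := by linarith
        calc (4 + (n : ℝ) + 1) * (C5 * Real.log ((Z s0).im - 2 - n / 2 + (4 + n)))
            ≤ (2 * L) * (C5 * (2 * L)) := by
              apply mul_le_mul h13 (mul_le_mul_of_nonneg_left h12 hC5.le) _ (by positivity)
              apply mul_nonneg hC5.le (Real.log_nonneg (by linarith))
          _ = 4 * C5 * L ^ 2 := by ring)
    refine h10.trans ?_
    have hTc : T ^ (1 - c3) = T * Real.exp (-(c3 * L)) := by
      rw [Real.rpow_sub hT0, Real.rpow_one, Real.rpow_def_of_pos hT0, div_eq_mul_inv,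
        ← Real.exp_neg, hL]
      congr 3
      ring
    rw [hTc]
    have h14 : L * Real.exp (-(c3 * L)) ≤ 2 / c3 * Real.exp (-(4 * n)) := by
      have h15 : c3 * L / 2 ≤ Real.exp (c3 * L / 2) := by
        have := Real.add_one_le_exp (c3 * L / 2)
        linarith
      have h16 : Real.exp (-(c3 * L)) * Real.exp (c3 * L / 2) ≤ Real.exp (-(4 * n)) := by
        rw [← Real.exp_add]
        apply Real.exp_le_exp.2
        have : (n : ℝ) ≤ c3 / 8 * L := hnL.trans (by gcongr)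
        linarith
      have h18 : L * Real.exp (-(c3 * L)) = 2 / c3 * (c3 * L / 2 * Real.exp (-(c3 * L))) := by
        field_simp
      rw [h18]
      apply mul_le_mul_of_nonneg_left _ (by positivity)
      calc c3 * L / 2 * Real.exp (-(c3 * L)) ≤ Real.exp (c3 * L / 2) * Real.exp (-(c3 * L)) :=
            mul_le_mul_of_nonneg_right h15 (Real.exp_pos _).le
        _ = Real.exp (-(c3 * L)) * Real.exp (c3 * L / 2) := mul_comm _ _
        _ ≤ _ := h16
    calc 4 * C5 * L ^ 2 * (C3 * (T * Real.exp (-(c3 * L)))) / (2 * 1)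
        = 2 * C5 * C3 * T * L * (L * Real.exp (-(c3 * L))) := by ring
      _ ≤ 2 * C5 * C3 * T * L * (2 / c3 * Real.exp (-(4 * n))) :=
          mul_le_mul_of_nonneg_left h14 (by positivity)
      _ = _ := by ring
  -- conclusion
  have hsum : ∑ s ∈ S, (analyticOrderNatAt (iteratedDeriv n XX) s : ℝ) =
      ∑ s ∈ S.filter pa, wt n s + ∑ s ∈ S', wt n s := by
    rw [hS', Finset.sum_filter_add_sum_filter_not]
    rfl
  rw [hsum]
  calc ∑ s ∈ S.filter pa, wt n s + ∑ s ∈ S', wt n s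
      ≤ 25 * C4 * 2 ^ j1 * CL * T * Real.exp (-(κt * n)) * L +
        (40000 * C5 * C1 * T * Real.exp (-(4 * n)) * L +
          4 * C5 * C3 / c3 * T * Real.exp (-(4 * n)) * L +
          50 * C4 * C1 * Q * T * Real.exp (-(4 * n)) * L) :=
        add_le_add hba (hsplit.trans (add_le_add (add_le_add hbc hbf) hbb))
    _ ≤ 25 * C4 * 2 ^ j1 * CL * T * Real.exp (-(κt * n)) * L +
        (40000 * C5 * C1 * T * Real.exp (-(κt * n)) * L +
          4 * C5 * C3 / c3 * T * Real.exp (-(κt * n)) * L +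
          50 * C4 * C1 * Q * T * Real.exp (-(κt * n)) * L) := by gcongr
    _ = _ := by ring

end Pool.Agent.Zk5.DH
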